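import Pool.Agent.Y915.Stm

set_option autoImplicit false

/-!
# Weighted `ℓ¹` norms of power series
-/

namespace Pool.Agent.Y274.PC

open Pool.Agent.Y915 Finset
open scoped PowerSeries Polynomial Nat

/-- the weighted `ℓ¹` norm is at most `B` -/
def Bd (ρ B : ℝ) (g : ℂ⟦X⟧) : Prop :=
  ∀ n : ℕ, ∑ m ∈ range n, ‖PowerSeries.coeff m g‖ * ρ ^ m ≤ B

lemma Bd.mono {ρ B B' : ℝ} {g : ℂ⟦X⟧} (h : Bd ρ B g) (hB : B ≤ B') : Bd ρ B' g :=
  fun n => (h n).trans hB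

lemma Bd.nonneg {ρ B : ℝ} {g : ℂ⟦X⟧} (h : Bd ρ B g) : 0 ≤ B := by
  have := h 0
  simpa using this

lemma Bd.coeff {ρ B : ℝ} (hρ : 0 ≤ ρ) {g : ℂ⟦X⟧} (h : Bd ρ B g) (m : ℕ) :
    ‖PowerSeries.coeff m g‖ * ρ ^ m ≤ B := by
  refine le_trans ?_ (h (m + 1))
  exact single_le_sum (f := fun m => ‖PowerSeries.coeff m g‖ * ρ ^ m)
    (fun i _ => by positivity) (mem_range.2 (Nat.lt_succ_self m))

lemma Bd.add {ρ B C : ℝ} (hρ : 0 ≤ ρ) {g h : ℂ⟦X⟧} (hg : Bd ρ B g) (hh : Bd ρ C h) :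
    Bd ρ (B + C) (g + h) := by
  intro n
  calc ∑ m ∈ range n, ‖PowerSeries.coeff m (g + h)‖ * ρ ^ m
      ≤ ∑ m ∈ range n, (‖PowerSeries.coeff m g‖ * ρ ^ m + ‖PowerSeries.coeff m h‖ * ρ ^ m) := by
        refine sum_le_sum fun m _ => ?_
        rw [map_add, ← add_mul]
        exact mul_le_mul_of_nonneg_right (norm_add_le _ _) (by positivity)
    _ ≤ B + C := by
        rw [sum_add_distrib]
        exact add_le_add (hg n) (hh n)

lemma sum_antidiagonal_le (n : ℕ) (a : ℕ × ℕ → ℝ) (ha : ∀ p, 0 ≤ a p) :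
    ∑ m ∈ range n, ∑ p ∈ antidiagonal m, a p ≤ ∑ p ∈ range n ×ˢ range n, a p := by
  have h1 : ∑ m ∈ range n, ∑ p ∈ antidiagonal m, a p =
      ∑ p ∈ (range n ×ˢ range n).filter (fun p => p.1 + p.2 < n), a p := by
    rw [← sum_fiberwise_of_maps_to (s := (range n ×ˢ range n).filter (fun p => p.1 + p.2 < n))
      (t := range n) (g := fun p : ℕ × ℕ => p.1 + p.2)
      (fun p hp => mem_range.2 (mem_filter.1 hp).2)]
    refine sum_congr rfl fun m hm => ?_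
    refine sum_congr ?_ fun _ _ => rfl
    ext p
    simp only [HasAntidiagonal.mem_antidiagonal, mem_filter, mem_product, mem_range] at hm ⊢
    omega
  rw [h1]
  exact sum_le_sum_of_subset_of_nonneg (filter_subset _ _) fun p _ _ => ha p

lemma Bd.mul {ρ B C : ℝ} (hρ : 0 ≤ ρ) {g h : ℂ⟦X⟧} (hg : Bd ρ B g) (hh : Bd ρ C h) :
    Bd ρ (B * C) (g * h) := by
  intro n
  have hB := hg.nonneg
  have hC := hh.nonneg
  calc ∑ m ∈ range n, ‖PowerSeries.coeff m (g * h)‖ * ρ ^ m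
      ≤ ∑ m ∈ range n, ∑ p ∈ antidiagonal m,
          (‖PowerSeries.coeff p.1 g‖ * ρ ^ p.1) * (‖PowerSeries.coeff p.2 h‖ * ρ ^ p.2) := by
        refine sum_le_sum fun m _ => ?_
        rw [PowerSeries.coeff_mul]
        have h1 : ∀ p ∈ antidiagonal m,
            (‖PowerSeries.coeff p.1 g‖ * ρ ^ p.1) * (‖PowerSeries.coeff p.2 h‖ * ρ ^ p.2) =
            (‖PowerSeries.coeff p.1 g * PowerSeries.coeff p.2 h‖) * ρ ^ m := by
          intro p hp
          rw [HasAntidiagonal.mem_antidiagonal] at hp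
          rw [← hp, norm_mul, pow_add]
          ring
        rw [sum_congr rfl h1, ← sum_mul]
        exact mul_le_mul_of_nonneg_right (norm_sum_le _ _) (by positivity)
    _ ≤ ∑ p ∈ range n ×ˢ range n,
          (‖PowerSeries.coeff p.1 g‖ * ρ ^ p.1) * (‖PowerSeries.coeff p.2 h‖ * ρ ^ p.2) :=
        sum_antidiagonal_le n _ fun p => by positivity
    _ = (∑ m ∈ range n, ‖PowerSeries.coeff m g‖ * ρ ^ m) *
          ∑ m ∈ range n, ‖PowerSeries.coeff m h‖ * ρ ^ m := by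
        rw [sum_mul_sum, sum_product]
    _ ≤ B * C := mul_le_mul (hg n) (hh n) (sum_nonneg fun _ _ => by positivity) hB

lemma Bd_C (ρ : ℝ) (a : ℂ) : Bd ρ ‖a‖ (PowerSeries.C a) := by
  intro n
  cases n with
  | zero => simp
  | succ n =>
    rw [sum_range_succ']
    have : ∀ m ∈ range n, ‖PowerSeries.coeff (m + 1) (PowerSeries.C a)‖ * ρ ^ (m + 1) = 0 := by
      intro m _
      rw [PowerSeries.coeff_C, if_neg (Nat.succ_ne_zero m), norm_zero, zero_mul]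
    rw [sum_congr rfl this, sum_const_zero, zero_add, PowerSeries.coeff_C, if_pos rfl, pow_zero,
      mul_one]

lemma Bd_intCast (ρ : ℝ) (a : ℤ) : Bd ρ |(a : ℝ)| (a : ℂ⟦X⟧) := by
  have h := Bd_C ρ (a : ℂ)
  have e : (PowerSeries.C (a : ℂ) : ℂ⟦X⟧) = (a : ℂ⟦X⟧) := map_intCast _ a
  rw [e] at h
  have e2 : ‖(a : ℂ)‖ = |(a : ℝ)| := Complex.norm_intCast a
  rwa [e2] at h

lemma Bd_one (ρ : ℝ) : Bd ρ 1 (1 : ℂ⟦X⟧) := by
  have := Bd_C ρ 1
  rwa [map_one, norm_one] at this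

lemma Bd.pow {ρ B : ℝ} (hρ : 0 ≤ ρ) {g : ℂ⟦X⟧} (hg : Bd ρ B g) (k : ℕ) :
    Bd ρ (B ^ k) (g ^ k) := by
  induction k with
  | zero => rw [pow_zero, pow_zero]; exact Bd_one ρ
  | succ k ih =>
    rw [pow_succ, pow_succ]
    exact ih.mul hρ hg

lemma Bd_zero (ρ : ℝ) : Bd ρ 0 (0 : ℂ⟦X⟧) := by
  intro n
  simp

lemma Bd_sum {ρ : ℝ} (hρ : 0 ≤ ρ) {ι : Type} (s : Finset ι) (B : ι → ℝ) (g : ι → ℂ⟦X⟧)
    (h : ∀ i ∈ s, Bd ρ (B i) (g i)) : Bd ρ (∑ i ∈ s, B i) (∑ i ∈ s, g i) := by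
  classical
  induction s using Finset.induction_on with
  | empty => simpa using Bd_zero ρ
  | insert a s ha ih =>
    rw [sum_insert ha, sum_insert ha]
    exact (h a (mem_insert_self _ _)).add hρ (ih fun i hi => h i (mem_insert_of_mem hi))

/-- the class `Gd` gives a bound for the weighted norm -/
lemma Bd_of_Gd {r ρ : ℝ} (hρ : 0 < ρ) (hr : ρ < r) {g : ℂ⟦X⟧} (hg : Gd r g) :
    ∃ B : ℝ, Bd ρ B g := by
  obtain ⟨ρ', h1, h2⟩ := exists_between hr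
  have hρ' : 0 < ρ' := hρ.trans h1
  obtain ⟨B, hB⟩ := hg ρ' hρ' h2
  have hx0 : 0 ≤ ρ / ρ' := by positivity
  have hx1 : ρ / ρ' < 1 := (div_lt_one hρ').2 h1
  have hB0 : 0 ≤ B := le_trans (by positivity) (hB 0)
  refine ⟨B * (1 - ρ / ρ')⁻¹, fun n => ?_⟩
  calc ∑ m ∈ range n, ‖PowerSeries.coeff m g‖ * ρ ^ m
      ≤ ∑ m ∈ range n, B * (ρ / ρ') ^ m := by
        refine sum_le_sum fun m _ => ?_
        have h3 : ‖PowerSeries.coeff m g‖ * ρ ^ m =
            (‖PowerSeries.coeff m g‖ * ρ' ^ m) * (ρ / ρ') ^ m := by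
          rw [div_pow]
          field_simp
        rw [h3]
        exact mul_le_mul_of_nonneg_right (hB m) (by positivity)
    _ = B * ∑ m ∈ range n, (ρ / ρ') ^ m := by rw [mul_sum]
    _ ≤ B * (1 - ρ / ρ')⁻¹ := by
        apply mul_le_mul_of_nonneg_left _ hB0
        rw [← tsum_geometric_of_lt_one hx0 hx1]
        exact (summable_geometric_of_lt_one hx0 hx1).sum_le_tsum _ (fun _ _ => by positivity)

end Pool.Agent.Y274.PC
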