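import Pool.Agent.Y811.PC.Stm

/-! Project PC (helper811), part CARD: explicit constants at the satellite parameters on the
boundary of the main component. -/

set_option autoImplicit false

namespace Pool.Agent.Y274.PC.Card

open Complex Metric Set Filter Topology Pool.Agent.H712R2 Pool.Agent.H713R2 N62a1eb23
open Pool.Agent.Y811.PC

theorem G_one (d : ℕ) (c : ℂ) : G d 1 c = fun z => z ^ d + c := by
  funext z
  simp [G, fc]

theorem mu_one (d : ℕ) (c z : ℂ) : mu d 1 c z = d * z ^ (d - 1) := by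
  unfold mu
  rw [G_one]
  simp

theorem t_CARD (h1 : S_CSC) (h2 : S_IFT) (_hA : S_ANA) : S_CARD := by
  intro d q z₀ ε₀ hd hq hprim hR ψ hψ
  set l₀ : ℂ := (d : ℂ) * z₀ ^ (d - 1) with hl₀
  have hl1 : l₀ ≠ 1 := hprim.ne_one (by omega)
  have hl1' : 1 - l₀ ≠ 0 := sub_ne_zero.2 (Ne.symm hl1)
  have hz : z₀ ≠ 0 := by
    rintro rfl
    have h3 : l₀ = 0 := by
      rw [hl₀, zero_pow (by omega), mul_zero]
    have h4 := hprim.pow_eq_one
    rw [h3, zero_pow (by omega)] at h4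
    exact zero_ne_one h4
  have hnorm : ‖l₀‖ = 1 := hprim.norm'_eq_one (by omega)
  have hmu : mu d 1 (z₀ - z₀ ^ d) z₀ = l₀ := mu_one d _ z₀
  have hPD : PD d 1 q (z₀ - z₀ ^ d) z₀ := by
    refine ⟨hd, le_rfl, by omega, ?_, fun j h0 h1 => by omega, ?_⟩
    · rw [G_one]
      ring
    · rw [hmu]
      exact hprim
  obtain ⟨δ, η, al, hδ, hη, hdiff, hal0, hF, -⟩ := h2 (fun p : ℂ × ℂ => p.2 ^ d + p.1 - p.2)
    (z₀ - z₀ ^ d) z₀ (((analyticAt_snd.pow d).add analyticAt_fst).sub analyticAt_snd) (by simp) (by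
      have h3 : HasDerivAt (fun y : ℂ => y ^ d + (z₀ - z₀ ^ d) - y) (l₀ + 0 - 1) z₀ := by
        refine ((hasDerivAt_pow d z₀).add (hasDerivAt_const z₀ (z₀ - z₀ ^ d))).sub (hasDerivAt_id z₀)
      change deriv (fun y : ℂ => y ^ d + (z₀ - z₀ ^ d) - y) z₀ ≠ 0
      rw [h3.deriv]
      intro h
      apply hl1
      linear_combination h)
  have hmem : ball (z₀ - z₀ ^ d) δ ∈ 𝓝 (z₀ - z₀ ^ d) := ball_mem_nhds _ hδ
  have hda : DifferentiableAt ℂ al (z₀ - z₀ ^ d) := hdiff.differentiableAt hmem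
  have hD := hda.hasDerivAt
  -- the derivative of `al`
  have hy : deriv al (z₀ - z₀ ^ d) = (1 - l₀)⁻¹ := by
    have h3 : HasDerivAt (fun c => al c ^ d + c - al c)
        ((d : ℂ) * al (z₀ - z₀ ^ d) ^ (d - 1) * deriv al (z₀ - z₀ ^ d) + 1 -
          deriv al (z₀ - z₀ ^ d)) (z₀ - z₀ ^ d) :=
      ((hD.pow d).add (hasDerivAt_id _)).sub hD
    have h4 : (fun c => al c ^ d + c - al c) =ᶠ[𝓝 (z₀ - z₀ ^ d)] fun _ => 0 := by
      filter_upwards [hmem] with c hc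
      exact hF c hc
    have h5 : HasDerivAt (fun c => al c ^ d + c - al c) 0 (z₀ - z₀ ^ d) :=
      (hasDerivAt_const _ (0 : ℂ)).congr_of_eventuallyEq h4
    have h6 := h3.unique h5
    rw [hal0, ← hl₀] at h6
    apply eq_inv_of_mul_eq_one_left
    linear_combination -h6
  obtain ⟨e, rfl⟩ : ∃ e, d = e + 2 := ⟨d - 2, by omega⟩
  have hmul : HasDerivAt (fun c => mu (e + 2) 1 c (al c))
      (((e + 2 : ℕ) : ℂ) * (((e + 1 : ℕ) : ℂ) * z₀ ^ e * (1 - l₀)⁻¹)) (z₀ - z₀ ^ (e + 2)) := by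
    have h3 : (fun c => mu (e + 2) 1 c (al c)) = fun c => ((e + 2 : ℕ) : ℂ) * al c ^ (e + 1) := by
      funext c
      rw [mu_one]
      rfl
    rw [h3]
    have h4 := (hD.pow (e + 1)).const_mul ((e + 2 : ℕ) : ℂ)
    rw [hal0, hy] at h4
    exact h4
  have hkn : ‖(((e + 2 : ℕ) : ℂ) * (((e + 1 : ℕ) : ℂ) * z₀ ^ e * (1 - l₀)⁻¹))‖ =
      (e + 1) / (‖z₀‖ * ‖1 - l₀‖) := by
    have h3 : (((e + 2 : ℕ) : ℂ) * (((e + 1 : ℕ) : ℂ) * z₀ ^ e * (1 - l₀)⁻¹)) =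
        ((e + 1 : ℕ) : ℂ) * l₀ * z₀⁻¹ * (1 - l₀)⁻¹ := by
      have h5 : l₀ = ((e + 2 : ℕ) : ℂ) * z₀ ^ (e + 1) := hl₀
      have h6 : l₀ * z₀⁻¹ = ((e + 2 : ℕ) : ℂ) * z₀ ^ e := by
        rw [h5, pow_succ]
        field_simp
      linear_combination -(((e + 1 : ℕ) : ℂ) * (1 - l₀)⁻¹) * h6
    rw [h3, norm_mul, norm_mul, norm_mul, hnorm, norm_inv, norm_inv, Complex.norm_natCast]
    push_cast
    rw [div_eq_mul_inv, mul_inv]
    ring
  have hz0 : 0 < ‖z₀‖ := norm_pos_iff.2 hz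
  have hl0 : 0 < ‖1 - l₀‖ := norm_pos_iff.2 hl1'
  have hk0 : (((e + 2 : ℕ) : ℂ) * (((e + 1 : ℕ) : ℂ) * z₀ ^ e * (1 - l₀)⁻¹)) ≠ 0 := by
    rw [← norm_pos_iff, hkn]
    positivity
  have h := h1 (e + 2) 1 q (z₀ - z₀ ^ (e + 2)) z₀ ε₀ hPD hR (by rw [hmu]; exact hl1) al _
    hda.continuousAt hal0 (by
      filter_upwards [hmem] with c hc
      have h3 := hF c hc
      rw [G_one]
      simp only at h3 ⊢
      linear_combination h3) hmul hk0 ψ hψ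
  rw [hkn] at h
  have hq0 : (0 : ℝ) < q := by exact_mod_cast (by omega : 0 < q)
  have hc : 2 * Real.pi * ((1 : ℕ) : ℝ) * Real.log ((e + 2 : ℕ) : ℝ) /
      (q * ((e + 1) / (‖z₀‖ * ‖1 - l₀‖))) =
      2 * Real.pi * Real.log ((e + 2 : ℕ) : ℝ) / q *
        (‖1 - l₀‖ * ‖z₀‖ / (((e + 2 : ℕ) : ℝ) - 1)) := by
    have h7 : (((e + 2 : ℕ) : ℝ) - 1) = e + 1 := by
      push_cast
      ring
    rw [h7]
    have h8 : (0 : ℝ) < e + 1 := by positivity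
    push_cast
    field_simp
  rw [hc] at h
  exact h

end Pool.Agent.Y274.PC.Card
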