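import Pool.Agent.Y274.PC.Pre

set_option autoImplicit false

/-!
# Algebraicity criterion (job PC-CRIT of project PC)
-/

namespace Pool.Agent.Y274.PC

open Pool.Agent.Y915 Finset
open scoped PowerSeries Polynomial Nat

attribute [local instance] Matrix.seminormedAddCommGroup in
/-- the auxiliary function -/
lemma siegel {f : ℚ⟦X⟧} {W : ℕ → ℕ} {E : ℕ} {τ A : ℝ} (hE : 0 < E) (hW0 : ∀ m, 0 < W m)
    (hW : ∀ m l, W m * W l ∣ W (m + l)) (hτ : ∀ m : ℕ, Real.log (W m) ≤ τ * m)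
    (hf : ∀ m : ℕ, ∃ z : ℤ, ((E * W m : ℕ) : ℚ) * PowerSeries.coeff m f = z) (hA : 1 ≤ A)
    (hfA : ∀ m : ℕ, |((PowerSeries.coeff m f : ℚ) : ℝ)| ≤ A ^ (m + 1)) (hτ0 : 0 ≤ τ)
    (T N0 : ℕ) (h0 : 0 < N0) (h1 : N0 < (T + 1) ^ 2) :
    ∃ (P : Fin (T + 1) × Fin (T + 1) → ℤ) (H : ℝ), P ≠ 0 ∧ 1 ≤ H ∧
      (∀ l < N0, PowerSeries.coeff l (gP f T P) = 0) ∧ (∀ p, |(P p : ℝ)| ≤ H) ∧
      Real.log H ≤ (N0 : ℝ) / (((T : ℝ) + 1) ^ 2 - N0) *
        (2 * Real.log ((T : ℝ) + 1) + T * Real.log E + τ * N0 + (N0 + T) * Real.log (2 * A)) := by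
  have hz : ∀ (l : Fin N0) (p : Fin (T + 1) × Fin (T + 1)), ∃ z : ℤ,
      ((E ^ T * W N0 : ℕ) : ℚ) *
        PowerSeries.coeff (l : ℕ) (PowerSeries.X ^ (p.1 : ℕ) * f ^ (p.2 : ℕ)) = z := by
    intro l p
    exact den_mono hW hf (by have := p.2.2; omega) l.2.le
  choose z hz using hz
  set Mx : Matrix (Fin N0) (Fin (T + 1) × Fin (T + 1)) ℤ := fun l p => z l p with hMx
  have hcβ : Fintype.card (Fin (T + 1) × Fin (T + 1)) = (T + 1) ^ 2 := by
    rw [Fintype.card_prod, Fintype.card_fin]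
    ring
  obtain ⟨P, hP0, hP1, hP2⟩ := Int.Matrix.exists_ne_zero_int_vec_norm_le Mx
    (by rw [hcβ, Fintype.card_fin]; exact h1) (by rw [Fintype.card_fin]; exact h0)
  rw [hcβ, Fintype.card_fin] at hP2
  set M0 : ℝ := (E : ℝ) ^ T * Real.exp (τ * N0) * (2 * A) ^ (N0 + T) with hM0
  have hE1 : (1:ℝ) ≤ E := by exact_mod_cast hE
  have hM1 : 1 ≤ M0 := by
    rw [hM0]
    have a1 : (1:ℝ) ≤ (E : ℝ) ^ T := one_le_pow₀ hE1
    have a2 : (1:ℝ) ≤ Real.exp (τ * N0) := Real.one_le_exp (by positivity)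
    have a3 : (1:ℝ) ≤ (2 * A) ^ (N0 + T) := one_le_pow₀ (by linarith)
    exact one_le_mul_of_one_le_of_one_le (one_le_mul_of_one_le_of_one_le a1 a2) a3
  have hWN : (W N0 : ℝ) ≤ Real.exp (τ * N0) := by
    rw [← Real.log_le_iff_le_exp (by exact_mod_cast hW0 N0)]
    exact hτ N0
  have hMn : ‖Mx‖ ≤ M0 := by
    rw [Matrix.norm_le_iff (by linarith)]
    intro l p
    rw [hMx]
    simp only
    rw [Int.norm_eq_abs]
    have e1 : ((z l p : ℤ) : ℝ) = ((E ^ T * W N0 : ℕ) : ℝ) *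
        ((PowerSeries.coeff (l : ℕ) (PowerSeries.X ^ (p.1 : ℕ) * f ^ (p.2 : ℕ)) : ℚ) : ℝ) := by
      have := hz l p
      rw [← Rat.cast_intCast, ← this]
      push_cast
      rfl
    rw [e1, abs_mul, abs_of_nonneg (Nat.cast_nonneg _)]
    have e2 : |((PowerSeries.coeff (l : ℕ) (PowerSeries.X ^ (p.1 : ℕ) * f ^ (p.2 : ℕ)) : ℚ) : ℝ)| ≤
        (2 * A) ^ (N0 + T) := by
      rw [PowerSeries.coeff_X_pow_mul']
      split_ifs with h
      · refine (coeff_pow_le hA hfA _ _).trans ?_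
        apply pow_le_pow_right₀ (by linarith)
        have := l.2
        have := p.2.2
        omega
      · simp only [Rat.cast_zero, abs_zero]
        positivity
    rw [hM0]
    apply mul_le_mul _ e2 (abs_nonneg _) (by positivity)
    push_cast
    exact mul_le_mul_of_nonneg_left hWN (by positivity)
  have hmax : max 1 ‖Mx‖ ≤ M0 := max_le hM1 hMn
  set ex : ℝ := (N0 : ℝ) / (((T : ℝ) + 1) ^ 2 - N0) with hex
  have h1' : (N0 : ℝ) < ((T : ℝ) + 1) ^ 2 := by exact_mod_cast h1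
  have hexn : 0 ≤ ex := by
    rw [hex]
    apply div_nonneg (Nat.cast_nonneg _)
    linarith
  have hT1 : (1:ℝ) ≤ ((T : ℝ) + 1) ^ 2 := one_le_pow₀ (by linarith [Nat.cast_nonneg (α := ℝ) T])
  refine ⟨P, (((T : ℝ) + 1) ^ 2 * M0) ^ ex, hP0, ?_, ?_, ?_, ?_⟩
  · exact Real.one_le_rpow (one_le_mul_of_one_le_of_one_le hT1 hM1) hexn
  · intro l hl
    have h2 : ((E ^ T * W N0 : ℕ) : ℚ) * PowerSeries.coeff l (gP f T P) = 0 := by
      rw [coeff_gP, mul_sum]
      have h3 : ∑ p, z ⟨l, hl⟩ p * P p = 0 := by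
        have := congrFun hP1 ⟨l, hl⟩
        simpa [Matrix.mulVec, dotProduct, hMx] using this
      have h4 : ((∑ p, z ⟨l, hl⟩ p * P p : ℤ) : ℚ) = 0 := by rw [h3]; simp
      rw [← h4]
      push_cast
      refine sum_congr rfl fun p _ => ?_
      have := hz ⟨l, hl⟩ p
      push_cast at this
      rw [← this]
      ring
    have h3 : ((E ^ T * W N0 : ℕ) : ℚ) ≠ 0 := by
      have := hW0 N0
      positivity
    exact (mul_eq_zero.1 h2).resolve_left h3
  · intro p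
    have h2 : |(P p : ℝ)| ≤ ‖P‖ := by
      rw [← Int.norm_eq_abs]
      exact norm_le_pi_norm P p
    refine h2.trans (hP2.trans ?_)
    push_cast
    apply Real.rpow_le_rpow (by positivity) _ hexn
    exact mul_le_mul_of_nonneg_left hmax (by positivity)
  · rw [Real.log_rpow (by positivity)]
    apply mul_le_mul_of_nonneg_left _ hexn
    rw [Real.log_mul (by positivity) (by positivity), Real.log_pow, hM0,
      Real.log_mul (by positivity) (by positivity), Real.log_mul (by positivity) (by positivity),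
      Real.log_pow, Real.log_exp, Real.log_pow]
    push_cast
    linarith

/-- the comparison of the lowest coefficient -/
lemma compare {f : ℚ⟦X⟧} {W : ℕ → ℕ} {E : ℕ} {τ : ℝ} {Ψ : ℚ⟦X⟧ →+* ℂ⟦X⟧} (hE : 0 < E)
    (hW0 : ∀ m, 0 < W m) (hW : ∀ m l, W m * W l ∣ W (m + l))
    (hτ : ∀ m : ℕ, Real.log (W m) ≤ τ * m)
    (hf : ∀ m : ℕ, ∃ z : ℤ, ((E * W m : ℕ) : ℚ) * PowerSeries.coeff m f = z)
    (hΨ : ∀ g : ℚ⟦X⟧, PowerSeries.constantCoeff (Ψ g) = ((PowerSeries.constantCoeff g : ℚ) : ℂ))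
    (hna : ¬ IsAlgebraic ℚ[X] f) {ρ B : ℝ} (hρ : 0 < ρ) (hB : 1 ≤ B)
    (h1 : Bd ρ B (Ψ PowerSeries.X)) (h2 : Bd ρ B (Ψ f))
    (hR : 1 < ‖PowerSeries.coeff 1 (Ψ PowerSeries.X)‖)
    {T N0 : ℕ} {P : Fin (T + 1) × Fin (T + 1) → ℤ} (hP : P ≠ 0) {H : ℝ} (hH1 : 1 ≤ H)
    (hH : ∀ p, |(P p : ℝ)| ≤ H) (hv : ∀ l < N0, PowerSeries.coeff l (gP f T P) = 0)
    (hδ : 0 ≤ Real.log ‖PowerSeries.coeff 1 (Ψ PowerSeries.X)‖ + Real.log ρ - τ) :
    (Real.log ‖PowerSeries.coeff 1 (Ψ PowerSeries.X)‖ + Real.log ρ - τ) * N0 ≤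
      2 * Real.log ((T : ℝ) + 1) + Real.log H + 2 * T * Real.log B + T * Real.log E := by
  set R := ‖PowerSeries.coeff 1 (Ψ PowerSeries.X)‖ with hRd
  obtain ⟨N, h, hg, hh0, hgN0, hgN, hlt⟩ := exists_order (gP_ne_zero hna hP)
  have hN : N0 ≤ N := by
    by_contra hlt'
    push Not at hlt'
    exact hgN0 (hv N hlt')
  -- integrality
  have hint : ∃ z : ℤ, ((E ^ T * W N : ℕ) : ℚ) * PowerSeries.coeff N (gP f T P) = z := by
    rw [coeff_gP, mul_sum]
    have h3 : ∀ p : Fin (T + 1) × Fin (T + 1), ∃ z : ℤ, ((E ^ T * W N : ℕ) : ℚ) *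
        ((P p : ℚ) * PowerSeries.coeff N (PowerSeries.X ^ (p.1 : ℕ) * f ^ (p.2 : ℕ))) = z := by
      intro p
      obtain ⟨z, hz⟩ := den_mono (i := (p.2 : ℕ)) (T := T) (l := N) (N := N) (a := (p.1 : ℕ))
        hW hf (by have := p.2.2; omega) le_rfl
      refine ⟨P p * z, ?_⟩
      push_cast at hz ⊢
      rw [← hz]
      ring
    choose z hz using h3
    refine ⟨∑ p, z p, ?_⟩
    rw [sum_congr rfl fun p _ => hz p]
    push_cast
    rfl
  obtain ⟨z, hz⟩ := hint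
  have hDpos : (0:ℝ) < ((E ^ T * W N : ℕ) : ℝ) := by
    have := hW0 N
    have : 0 < E ^ T * W N := by positivity
    exact_mod_cast this
  set x : ℝ := |((PowerSeries.coeff N (gP f T P) : ℚ) : ℝ)| with hx
  have hx0 : 0 < x := by
    rw [hx, abs_pos]
    exact_mod_cast hgN0
  have hz0 : z ≠ 0 := by
    intro h0
    rw [h0] at hz
    have h3 : ((E ^ T * W N : ℕ) : ℚ) ≠ 0 := by
      have h4 : 0 < E ^ T * W N := by exact_mod_cast hDpos
      exact_mod_cast h4.ne'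
    simp only [Int.cast_zero] at hz
    exact (mul_ne_zero h3 hgN0) hz
  have hlow : 1 ≤ ((E ^ T * W N : ℕ) : ℝ) * x := by
    have h3 : ((E ^ T * W N : ℕ) : ℝ) * x = |((z : ℤ) : ℝ)| := by
      rw [hx]
      have h4 : ((z : ℤ) : ℝ) = ((E ^ T * W N : ℕ) : ℝ) *
          ((PowerSeries.coeff N (gP f T P) : ℚ) : ℝ) := by
        rw [← Rat.cast_intCast, ← hz]
        push_cast
        rfl
      rw [h4, abs_mul, abs_of_pos hDpos]
    rw [h3]
    have h5 : 1 ≤ |z| := Int.one_le_abs hz0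
    have h6 : ((1 : ℤ) : ℝ) ≤ ((|z| : ℤ) : ℝ) := by exact_mod_cast h5
    push_cast at h6
    exact h6
  -- upper bound
  have hup : x * R ^ N * ρ ^ N ≤ ((T : ℝ) + 1) ^ 2 * H * B ^ (2 * T) := by
    have h3 := (Bd_gP hρ.le hB h1 h2 hH).coeff hρ.le N
    have h4 : ‖PowerSeries.coeff N (Ψ (gP f T P))‖ = R ^ N * x := by
      rw [hg, coeff_low Ψ hΨ, norm_mul, norm_pow, hx, hgN]
      congr 1
      have e : (((PowerSeries.constantCoeff h : ℚ) : ℂ)) =
          (((PowerSeries.constantCoeff h : ℚ) : ℝ) : ℂ) := by push_cast; rfl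
      rw [e, Complex.norm_real, Real.norm_eq_abs]
    rw [h4] at h3
    linarith [h3]
  have hRpos : 0 < R := by linarith
  have hBpos : 0 < B := by linarith
  have hHpos : 0 < H := by linarith
  have hlow2 : 0 ≤ T * Real.log E + τ * N + Real.log x := by
    have h3 := Real.log_nonneg hlow
    rw [Real.log_mul hDpos.ne' hx0.ne'] at h3
    have h4 : Real.log ((E ^ T * W N : ℕ) : ℝ) = T * Real.log E + Real.log (W N) := by
      push_cast
      have : (W N : ℝ) ≠ 0 := by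
        have := hW0 N
        positivity
      rw [Real.log_mul (by positivity) this, Real.log_pow]
    rw [h4] at h3
    linarith [hτ N]
  have hup2 : Real.log x + N * Real.log R + N * Real.log ρ ≤
      2 * Real.log ((T : ℝ) + 1) + Real.log H + 2 * T * Real.log B := by
    have h3 := Real.log_le_log (by positivity) hup
    rw [Real.log_mul (by positivity) (by positivity), Real.log_mul (by positivity) (by positivity),
      Real.log_mul (by positivity) (by positivity), Real.log_mul (by positivity) (by positivity),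
      Real.log_pow, Real.log_pow, Real.log_pow, Real.log_pow] at h3
    push_cast at h3
    linarith
  have hNN : (N0 : ℝ) ≤ N := by exact_mod_cast hN
  calc (Real.log R + Real.log ρ - τ) * N0 ≤ (Real.log R + Real.log ρ - τ) * N :=
        mul_le_mul_of_nonneg_left hNN hδ
    _ ≤ _ := by linarith

lemma frac_le {e U N0 : ℝ} (he0 : 0 < e) (he1 : e ≤ 1 / 2) (hU1 : 1 ≤ U) (hN0 : N0 ≤ e * U) :
    N0 / (U - N0) ≤ 2 * e := by
  have h1 : e * U ≤ 1 / 2 * U := mul_le_mul_of_nonneg_right he1 (by linarith)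
  rw [div_le_iff₀ (by linarith)]
  have h2 : 2 * e * (1 / 2 * U) ≤ 2 * e * (U - N0) :=
    mul_le_mul_of_nonneg_left (by linarith) (by linarith)
  linarith

lemma final_contra {δ e T N0 U lE lB lA lH lT c2 C3 : ℝ} (hδ0 : 0 < δ) (he0 : 0 < e)
    (hT1 : 0 ≤ T) (hU : U = (T + 1) ^ 2) (hc2 : c2 = lE + lA + 2 * lB + lE)
    (he2 : 2 * e * C3 ≤ δ / 2) (hTd : δ + 4 + c2 < T * (δ * e / 2)) (hN0gt : e * U < N0 + 1)
    (hlT : lT ≤ T) (hlH2 : lH ≤ 2 * lT + T * lE + T * lA + 2 * e * (C3 * (e * U)))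
    (hcmp : δ * N0 ≤ 2 * lT + lH + 2 * T * lB + T * lE) (hlE : 0 ≤ lE) (hlB : 0 ≤ lB)
    (hlA : 0 ≤ lA) : False := by
  have hU0 : 0 ≤ U := by rw [hU]; positivity
  have hEU : 0 ≤ e * U := by positivity
  have h6 : δ * (e * U - 1) ≤ δ * N0 := by
    apply mul_le_mul_of_nonneg_left _ hδ0.le
    linarith
  have h7 : 2 * e * (C3 * (e * U)) ≤ δ / 2 * (e * U) := by
    have : 2 * e * (C3 * (e * U)) = (2 * e * C3) * (e * U) := by ring
    rw [this]
    exact mul_le_mul_of_nonneg_right he2 hEU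
  have h8 : δ / 2 * (e * U) ≤ δ + 4 * T + T * c2 := by
    have h81 : δ * (e * U - 1) ≤ 4 * T + T * lE + T * lA + δ / 2 * (e * U) + 2 * T * lB + T * lE := by
      linarith
    have h82 : T * c2 = T * lE + T * lA + 2 * T * lB + T * lE := by rw [hc2]; ring
    linarith
  have h10 : (δ + 4 + c2) * (T + 1) < (T * (δ * e / 2)) * (T + 1) :=
    mul_lt_mul_of_pos_right hTd (by linarith)
  have h11 : (T * (δ * e / 2)) * (T + 1) ≤ δ / 2 * (e * U) := by
    rw [hU]
    have h12 : δ / 2 * (e * (T + 1) ^ 2) = (T * (δ * e / 2)) * (T + 1) + (δ * e / 2) * (T + 1) := by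
      ring
    rw [h12]
    have : 0 ≤ (δ * e / 2) * (T + 1) := by positivity
    linarith
  have h13 : 0 ≤ c2 := by rw [hc2]; positivity
  have h14 : (δ + 4 + c2) * (T + 1) = δ + 4 * T + T * c2 + (δ * T + 4 + c2) := by ring
  have h15 : 0 ≤ δ * T := by positivity
  linarith

theorem crit : StCrit := by
  intro f W E τ A Ψ hE hW0 hW hτ hf hfA hΨ hX hF hR
  by_contra hna
  -- normalisations
  have hW1 : (1:ℝ) ≤ W 1 := by exact_mod_cast hW0 1
  have hτ0 : 0 ≤ τ := by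
    have := hτ 1
    have h2 := Real.log_nonneg hW1
    push_cast at this
    linarith
  set R := ‖PowerSeries.coeff 1 (Ψ PowerSeries.X)‖ with hRd
  have hR0 : 0 ≤ R := norm_nonneg _
  have hR1 : 1 < R := by
    by_contra h
    push Not at h
    have := Real.log_nonpos hR0 h
    linarith
  set A' := max A 1 with hA'
  have hA1 : 1 ≤ A' := le_max_right _ _
  have hA0 : 0 ≤ A := by
    have := hfA 0
    simp only [zero_add, pow_one] at this
    exact (abs_nonneg _).trans this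
  have hfA' : ∀ m : ℕ, |((PowerSeries.coeff m f : ℚ) : ℝ)| ≤ A' ^ (m + 1) := fun m =>
    (hfA m).trans (pow_le_pow_left₀ hA0 (le_max_left _ _) _)
  set δ := (Real.log R - τ) / 2 with hδ
  have hδ0 : 0 < δ := by rw [hδ]; linarith
  set ρ := Real.exp (-δ) with hρd
  have hρ : 0 < ρ := Real.exp_pos _
  have hρ1 : ρ < 1 := by rw [hρd, Real.exp_lt_one_iff]; linarith
  have hlρ : Real.log ρ = -δ := Real.log_exp _
  have hδ2 : Real.log R + Real.log ρ - τ = δ := by rw [hlρ, hδ]; ring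
  obtain ⟨B1, hB1⟩ := Bd_of_Gd hρ hρ1 hX
  obtain ⟨B2, hB2⟩ := Bd_of_Gd hρ hρ1 hF
  set B := max 1 (max B1 B2) with hBd
  have hB : 1 ≤ B := le_max_left _ _
  have hBX : Bd ρ B (Ψ PowerSeries.X) := hB1.mono ((le_max_left _ _).trans (le_max_right _ _))
  have hBF : Bd ρ B (Ψ f) := hB2.mono ((le_max_right _ _).trans (le_max_right _ _))
  -- the parameters
  have hE1 : (1:ℝ) ≤ E := by exact_mod_cast hE
  have hlE : 0 ≤ Real.log E := Real.log_nonneg hE1
  have hlB : 0 ≤ Real.log B := Real.log_nonneg hB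
  have hlA : 0 ≤ Real.log (2 * A') := Real.log_nonneg (by linarith)
  set C3 := τ + Real.log (2 * A') with hC3
  have hC30 : 0 ≤ C3 := by rw [hC3]; linarith
  set e := min (1 / 2) (δ / (4 * (C3 + 1))) with he
  have he0 : 0 < e := by
    rw [he]
    apply lt_min (by norm_num)
    positivity
  have he1 : e ≤ 1 / 2 := min_le_left _ _
  have he2 : 2 * e * C3 ≤ δ / 2 := by
    have h3 : e ≤ δ / (4 * (C3 + 1)) := min_le_right _ _
    have h4 : e * (4 * (C3 + 1)) ≤ δ := by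
      rwa [le_div_iff₀ (by positivity)] at h3
    linarith
  set c2 := Real.log E + Real.log (2 * A') + 2 * Real.log B + Real.log E with hc2
  have hc20 : 0 ≤ c2 := by rw [hc2]; positivity
  obtain ⟨T, hT⟩ := exists_nat_gt ((δ + 4 + c2) / (δ * e / 2) + 1 / e)
  have hTe : 1 / e < T := by
    have : 0 ≤ (δ + 4 + c2) / (δ * e / 2) := by positivity
    linarith
  have hTd : δ + 4 + c2 < (T : ℝ) * (δ * e / 2) := by
    rw [← div_lt_iff₀ (by positivity)]
    have : 0 < 1 / e := by positivity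
    linarith
  have hT1 : (1:ℝ) ≤ T := by
    have h3 : 1 ≤ 1 / e := by
      rw [le_div_iff₀ he0]
      linarith
    linarith
  set U : ℝ := ((T : ℝ) + 1) ^ 2 with hU
  have hU1 : 1 ≤ U := by rw [hU]; exact one_le_pow₀ (by linarith)
  set N0 := ⌊e * U⌋₊ with hN0
  have hN0le : (N0 : ℝ) ≤ e * U := Nat.floor_le (by positivity)
  have hN0gt : e * U < N0 + 1 := Nat.lt_floor_add_one _
  have hN0pos : 0 < N0 := by
    rw [hN0]
    apply Nat.floor_pos.2
    have h3 : 1 < e * T := by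
      rw [div_lt_iff₀ he0] at hTe
      linarith
    have h4 : (T : ℝ) ≤ U := by
      rw [hU]
      have : 0 ≤ (T : ℝ) * T := by positivity
      linarith [sq_nonneg ((T : ℝ) + 1), (by ring : ((T : ℝ) + 1) ^ 2 = T * T + 2 * T + 1)]
    have h5 : e * T ≤ e * U := mul_le_mul_of_nonneg_left h4 he0.le
    linarith
  have hN0lt : N0 < (T + 1) ^ 2 := by
    have h3 : (N0 : ℝ) < ((T : ℝ) + 1) ^ 2 := by
      have h5 : e * U ≤ 1 / 2 * U := mul_le_mul_of_nonneg_right he1 (by linarith)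
      rw [← hU]
      linarith
    exact_mod_cast h3
  obtain ⟨P, H, hP, hH1, hv, hH, hlH⟩ := siegel hE hW0 hW hτ hf hA1 hfA' hτ0 T N0 hN0pos hN0lt
  have hcmp := compare hE hW0 hW hτ hf hΨ hna hρ hB hBX hBF hR1 hP hH1 hH hv
    (by rw [← hRd, hδ2]; exact hδ0.le)
  rw [← hRd, hδ2] at hcmp
  -- bound for log H
  have hlT : Real.log ((T : ℝ) + 1) ≤ T := by
    have := Real.log_le_sub_one_of_pos (x := (T : ℝ) + 1) (by positivity)
    linarith
  have hlT0 : 0 ≤ Real.log ((T : ℝ) + 1) := Real.log_nonneg (by linarith)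
  have hfrac : (N0 : ℝ) / (((T : ℝ) + 1) ^ 2 - N0) ≤ 2 * e := by
    rw [← hU]
    exact frac_le he0 he1 hU1 hN0le
  have hfrac1 : 2 * e ≤ 1 := by linarith
  have hin0 : 0 ≤ 2 * Real.log ((T : ℝ) + 1) + T * Real.log E + τ * N0 +
      (N0 + T) * Real.log (2 * A') := by positivity
  have hlH2 : Real.log H ≤ 2 * Real.log ((T : ℝ) + 1) + T * Real.log E +
      T * Real.log (2 * A') + 2 * e * (C3 * (e * U)) := by
    refine hlH.trans ((mul_le_mul_of_nonneg_right hfrac hin0).trans ?_)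
    have h3 : 2 * Real.log ((T : ℝ) + 1) + T * Real.log E + τ * N0 +
        (N0 + T) * Real.log (2 * A') = (2 * Real.log ((T : ℝ) + 1) + T * Real.log E +
          T * Real.log (2 * A')) + C3 * N0 := by rw [hC3]; ring
    rw [h3, mul_add]
    have h4 : 2 * e * (2 * Real.log ((T : ℝ) + 1) + T * Real.log E + T * Real.log (2 * A')) ≤
        1 * (2 * Real.log ((T : ℝ) + 1) + T * Real.log E + T * Real.log (2 * A')) :=
      mul_le_mul_of_nonneg_right hfrac1 (by positivity)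
    have h5 : 2 * e * (C3 * N0) ≤ 2 * e * (C3 * (e * U)) := by
      apply mul_le_mul_of_nonneg_left _ (by positivity)
      exact mul_le_mul_of_nonneg_left hN0le hC30
    linarith
  -- contradiction
  refine final_contra hδ0 he0 (T := (T : ℝ)) (by linarith) (N0 := (N0 : ℝ)) (U := U) hU
    (lE := Real.log E) (lB := Real.log B) (lA := Real.log (2 * A')) (lH := Real.log H)
    (lT := Real.log ((T : ℝ) + 1)) hc2 (C3 := C3) he2 hTd hN0gt hlT hlH2 ?_ hlE hlB hlA
  linarith [hcmp]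

end Pool.Agent.Y274.PC
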