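import Pool.Agent.Y274.PC.Bd

set_option autoImplicit false

/-!
# Algebraicity criterion: lowest coefficients, denominators, linear combinations
-/

namespace Pool.Agent.Y274.PC

open Pool.Agent.Y915 Finset
open scoped PowerSeries Polynomial Nat

/-! ### the lowest coefficient -/

lemma coeff_low (Ψ : ℚ⟦X⟧ →+* ℂ⟦X⟧)
    (hΨ : ∀ g : ℚ⟦X⟧, PowerSeries.constantCoeff (Ψ g) = ((PowerSeries.constantCoeff g : ℚ) : ℂ))
    (N : ℕ) (h : ℚ⟦X⟧) :
    PowerSeries.coeff N (Ψ (PowerSeries.X ^ N * h)) =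
      (PowerSeries.coeff 1 (Ψ PowerSeries.X)) ^ N * ((PowerSeries.constantCoeff h : ℚ) : ℂ) := by
  have h0 : PowerSeries.constantCoeff (Ψ PowerSeries.X) = 0 := by
    rw [hΨ, PowerSeries.constantCoeff_X]
    simp
  obtain ⟨u, hu⟩ := PowerSeries.X_dvd_iff.2 h0
  rw [map_mul, map_pow, hu, mul_pow, mul_assoc, PowerSeries.coeff_X_pow_mul', if_pos le_rfl,
    Nat.sub_self, PowerSeries.coeff_zero_eq_constantCoeff_apply, map_mul, map_pow, hΨ]
  congr 2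
  rw [← PowerSeries.coeff_zero_eq_constantCoeff_apply]
  exact (PowerSeries.coeff_succ_X_mul 0 u).symm

/-- every nonzero power series is `X ^ N` times a unit -/
lemma exists_order {g : ℚ⟦X⟧} (hg : g ≠ 0) : ∃ (N : ℕ) (h : ℚ⟦X⟧), g = PowerSeries.X ^ N * h ∧
    PowerSeries.constantCoeff h ≠ 0 ∧ PowerSeries.coeff N g ≠ 0 ∧
    PowerSeries.coeff N g = PowerSeries.constantCoeff h ∧
    ∀ m < N, PowerSeries.coeff m g = 0 := by
  classical
  have hex : ∃ m, PowerSeries.coeff m g ≠ 0 := by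
    by_contra h
    push Not at h
    exact hg (PowerSeries.ext fun n => by rw [h n, map_zero])
  set N := Nat.find hex with hN
  have h1 : PowerSeries.coeff N g ≠ 0 := Nat.find_spec hex
  have h2 : ∀ m < N, PowerSeries.coeff m g = 0 := fun m hm => by
    have := Nat.find_min hex hm
    push Not at this
    exact this
  obtain ⟨h, hh⟩ := PowerSeries.X_pow_dvd_iff.2 h2
  have h3 : PowerSeries.coeff N g = PowerSeries.constantCoeff h := by
    rw [hh, PowerSeries.coeff_X_pow_mul', if_pos le_rfl, Nat.sub_self,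
      PowerSeries.coeff_zero_eq_constantCoeff_apply]
  exact ⟨N, h, hh, h3 ▸ h1, h1, h3, h2⟩

/-! ### denominators -/

lemma dvd_W {W : ℕ → ℕ} (hW : ∀ m l, W m * W l ∣ W (m + l)) {l m : ℕ} (h : l ≤ m) :
    W l ∣ W m := by
  have := hW l (m - l)
  rw [Nat.add_sub_cancel' h] at this
  exact (Dvd.intro _ rfl).trans this

lemma den_pow {f : ℚ⟦X⟧} {W : ℕ → ℕ} {E : ℕ} (hW : ∀ m l, W m * W l ∣ W (m + l))
    (hf : ∀ m : ℕ, ∃ z : ℤ, ((E * W m : ℕ) : ℚ) * PowerSeries.coeff m f = z) (i m : ℕ) :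
    ∃ z : ℤ, ((E ^ i * W m : ℕ) : ℚ) * PowerSeries.coeff m (f ^ i) = z := by
  induction i generalizing m with
  | zero =>
    rw [pow_zero, pow_zero, PowerSeries.coeff_one]
    by_cases hm : m = 0
    · refine ⟨(1 * W m : ℕ), ?_⟩
      rw [if_pos hm]
      push_cast
      ring
    · refine ⟨0, ?_⟩
      rw [if_neg hm]
      simp
  | succ i ih =>
    rw [pow_succ f, PowerSeries.coeff_mul, mul_sum]
    have h1 : ∀ p ∈ antidiagonal m, ∃ z : ℤ, ((E ^ (i + 1) * W m : ℕ) : ℚ) *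
        (PowerSeries.coeff p.1 (f ^ i) * PowerSeries.coeff p.2 f) = z := by
      intro p hp
      rw [HasAntidiagonal.mem_antidiagonal] at hp
      obtain ⟨z, hz⟩ := ih p.1
      obtain ⟨w, hw⟩ := hf p.2
      obtain ⟨c, hc⟩ := hW p.1 p.2
      rw [hp] at hc
      refine ⟨c * z * w, ?_⟩
      rw [hc]
      push_cast at hz hw ⊢
      rw [← hz, ← hw]
      ring
    choose! z hz using h1
    refine ⟨∑ p ∈ antidiagonal m, z p, ?_⟩
    rw [sum_congr rfl hz]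
    push_cast
    rfl

lemma den_mono {f : ℚ⟦X⟧} {W : ℕ → ℕ} {E : ℕ} (hW : ∀ m l, W m * W l ∣ W (m + l))
    (hf : ∀ m : ℕ, ∃ z : ℤ, ((E * W m : ℕ) : ℚ) * PowerSeries.coeff m f = z) {i T l N a : ℕ}
    (hi : i ≤ T) (hl : l ≤ N) :
    ∃ z : ℤ, ((E ^ T * W N : ℕ) : ℚ) * PowerSeries.coeff l (PowerSeries.X ^ a * f ^ i) = z := by
  rw [PowerSeries.coeff_X_pow_mul']
  split_ifs with h
  · obtain ⟨z, hz⟩ := den_pow hW hf i (l - a)
    obtain ⟨c, hc⟩ := dvd_W hW (show l - a ≤ N by omega)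
    refine ⟨E ^ (T - i) * c * z, ?_⟩
    rw [hc, ← Nat.sub_add_cancel hi, pow_add]
    push_cast at hz ⊢
    rw [← hz, Nat.sub_add_cancel hi]
    ring
  · exact ⟨0, by simp⟩

/-! ### crude upper bound for the coefficients of the powers -/

lemma coeff_pow_le {f : ℚ⟦X⟧} {A : ℝ} (hA : 1 ≤ A)
    (hf : ∀ m : ℕ, |((PowerSeries.coeff m f : ℚ) : ℝ)| ≤ A ^ (m + 1)) (i m : ℕ) :
    |((PowerSeries.coeff m (f ^ i) : ℚ) : ℝ)| ≤ (2 * A) ^ (m + i) := by
  induction i generalizing m with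
  | zero =>
    rw [pow_zero, PowerSeries.coeff_one]
    have h1 : (1:ℝ) ≤ (2 * A) ^ (m + 0) := one_le_pow₀ (by linarith)
    split_ifs with hm
    · simpa using h1
    · simp only [Rat.cast_zero, abs_zero]
      linarith
  | succ i ih =>
    rw [pow_succ f, PowerSeries.coeff_mul]
    push_cast
    refine (abs_sum_le_sum_abs _ _).trans ?_
    have h1 : ∀ p ∈ antidiagonal m, |((PowerSeries.coeff p.1 (f ^ i) : ℚ) : ℝ) *
        ((PowerSeries.coeff p.2 f : ℚ) : ℝ)| ≤ A ^ (m + i + 1) * 2 ^ i * 2 ^ p.1 := by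
      intro p hp
      rw [HasAntidiagonal.mem_antidiagonal] at hp
      rw [abs_mul]
      calc _ ≤ (2 * A) ^ (p.1 + i) * A ^ (p.2 + 1) :=
            mul_le_mul (ih p.1) (hf p.2) (abs_nonneg _) (by positivity)
        _ = _ := by
            rw [← hp, mul_pow]
            ring
    refine (sum_le_sum h1).trans ?_
    rw [← mul_sum, Finset.Nat.sum_antidiagonal_eq_sum_range_succ_mk]
    simp only
    have h2 : ∑ k ∈ range (m + 1), (2:ℝ) ^ k ≤ 2 ^ (m + 1) := by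
      have := geom_sum_eq (x := (2:ℝ)) (by norm_num) (m + 1)
      rw [this]
      norm_num
    calc A ^ (m + i + 1) * 2 ^ i * ∑ k ∈ range (m + 1), (2:ℝ) ^ k
        ≤ A ^ (m + i + 1) * 2 ^ i * 2 ^ (m + 1) :=
          mul_le_mul_of_nonneg_left h2 (by positivity)
      _ = _ := by
          rw [mul_pow]
          ring

/-! ### linear combinations -/

/-- the combination of the monomials `X ^ a f ^ b` -/
noncomputable def gP (f : ℚ⟦X⟧) (T : ℕ) (P : Fin (T + 1) × Fin (T + 1) → ℤ) : ℚ⟦X⟧ :=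
  ∑ p, ((P p : ℤ) : ℚ⟦X⟧) * (PowerSeries.X ^ (p.1 : ℕ) * f ^ (p.2 : ℕ))

lemma coeff_gP (f : ℚ⟦X⟧) (T : ℕ) (P : Fin (T + 1) × Fin (T + 1) → ℤ) (l : ℕ) :
    PowerSeries.coeff l (gP f T P) =
      ∑ p, (P p : ℚ) * PowerSeries.coeff l (PowerSeries.X ^ (p.1 : ℕ) * f ^ (p.2 : ℕ)) := by
  unfold gP
  rw [map_sum]
  refine sum_congr rfl fun p _ => ?_
  have : (((P p : ℤ) : ℚ⟦X⟧)) = PowerSeries.C ((P p : ℤ) : ℚ) := (map_intCast _ _).symm
  rw [this, PowerSeries.coeff_C_mul]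

/-- the polynomial of a combination -/
noncomputable def polP (T : ℕ) (P : Fin (T + 1) × Fin (T + 1) → ℤ) : ℚ[X][X] :=
  ∑ p, Polynomial.C (Polynomial.C ((P p : ℤ) : ℚ) * Polynomial.X ^ (p.1 : ℕ)) *
    Polynomial.X ^ (p.2 : ℕ)

lemma polP_coeff (T : ℕ) (P : Fin (T + 1) × Fin (T + 1) → ℤ) (p : Fin (T + 1) × Fin (T + 1)) :
    ((polP T P).coeff (p.2 : ℕ)).coeff (p.1 : ℕ) = (P p : ℚ) := by
  unfold polP
  rw [Polynomial.finsetSum_coeff, Polynomial.finsetSum_coeff]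
  rw [sum_eq_single p]
  · rw [Polynomial.coeff_C_mul_X_pow, if_pos rfl, Polynomial.coeff_C_mul_X_pow, if_pos rfl]
  · intro p' _ hne
    rw [Polynomial.coeff_C_mul_X_pow]
    split_ifs with h1
    · rw [Polynomial.coeff_C_mul_X_pow, if_neg]
      intro h2
      apply hne
      ext <;> omega
    · simp
  · intro h
    exact absurd (mem_univ _) h

lemma aeval_polP (f : ℚ⟦X⟧) (T : ℕ) (P : Fin (T + 1) × Fin (T + 1) → ℤ) :
    Polynomial.aeval f (polP T P) = gP f T P := by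
  unfold polP gP
  rw [map_sum]
  refine sum_congr rfl fun p _ => ?_
  rw [map_mul, map_pow, Polynomial.aeval_X, Polynomial.aeval_C, ← mul_assoc]
  congr 1
  rw [map_mul, map_pow]
  have h1 : algebraMap ℚ[X] ℚ⟦X⟧ Polynomial.X = PowerSeries.X := by
    rw [PowerSeries.algebraMap_apply']
    simp
  have h2 : algebraMap ℚ[X] ℚ⟦X⟧ (Polynomial.C ((P p : ℤ) : ℚ)) = ((P p : ℤ) : ℚ⟦X⟧) := by
    have : (Polynomial.C ((P p : ℤ) : ℚ) : ℚ[X]) = ((P p : ℤ) : ℚ[X]) := map_intCast _ _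
    rw [this, map_intCast]
  rw [h1, h2]

lemma gP_ne_zero {f : ℚ⟦X⟧} (hf : ¬ IsAlgebraic ℚ[X] f) {T : ℕ}
    {P : Fin (T + 1) × Fin (T + 1) → ℤ} (hP : P ≠ 0) : gP f T P ≠ 0 := by
  intro h
  apply hf
  refine ⟨polP T P, ?_, ?_⟩
  · intro h0
    apply hP
    funext p
    have h1 := polP_coeff T P p
    rw [h0] at h1
    simp only [Polynomial.coeff_zero] at h1
    exact_mod_cast h1.symm
  · rw [aeval_polP, h]

lemma Bd_gP {Ψ : ℚ⟦X⟧ →+* ℂ⟦X⟧} {f : ℚ⟦X⟧} {ρ B : ℝ} (hρ : 0 ≤ ρ) (hB : 1 ≤ B)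
    (h1 : Bd ρ B (Ψ PowerSeries.X)) (h2 : Bd ρ B (Ψ f)) {T : ℕ}
    {P : Fin (T + 1) × Fin (T + 1) → ℤ} {H : ℝ} (hH : ∀ p, |(P p : ℝ)| ≤ H) :
    Bd ρ (((T : ℝ) + 1) ^ 2 * H * B ^ (2 * T)) (Ψ (gP f T P)) := by
  unfold gP
  rw [map_sum]
  have h3 : Bd ρ (∑ _p : Fin (T + 1) × Fin (T + 1), H * B ^ (2 * T))
      (∑ p : Fin (T + 1) × Fin (T + 1),
        Ψ (((P p : ℤ) : ℚ⟦X⟧) * (PowerSeries.X ^ (p.1 : ℕ) * f ^ (p.2 : ℕ)))) := by
    apply Bd_sum hρ
    intro p _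
    rw [map_mul, map_mul, map_pow, map_pow, map_intCast]
    have h4 := (Bd_intCast ρ (P p)).mul hρ ((h1.pow hρ (p.1 : ℕ)).mul hρ (h2.pow hρ (p.2 : ℕ)))
    refine h4.mono ?_
    apply mul_le_mul (hH p) _ (by positivity) ((abs_nonneg _).trans (hH p))
    rw [← pow_add]
    apply pow_le_pow_right₀ hB
    have := p.1.2
    have := p.2.2
    omega
  refine h3.mono (le_of_eq ?_)
  rw [sum_const, card_univ]
  simp only [Fintype.card_prod, Fintype.card_fin, nsmul_eq_mul]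
  push_cast
  ring

end Pool.Agent.Y274.PC
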